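import Pool.Agent.Helper18.FF3.Stmts

/-! # MP_8312c9_nt, ff_mods Part III: module VAL -/

set_option autoImplicit false

namespace Pool.Agent.Helper18.FF3

open Polynomial Pool.Agent.Helper14.BSC Pool.Agent.Helper60.FF

section

variable {k Ω : Type} [Field k] [Field Ω] [Algebra k Ω] {D : Sec k Ω} {p : ℕ} [Fact p.Prime]
  {σ : k →+* ℂ_[p]}

open scoped Classical in
/-- the factor of one place -/
noncomputable def valF (P : Place D p σ) (t : LL D) : Polynomial ℂ_[p] :=
  if h : t ∈ P.C then X - C (P.φ ⟨t, h⟩) else 1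

theorem valF_ne (P : Place D p σ) (t : LL D) : valF P t ≠ 0 := by
  unfold valF
  split_ifs
  · exact X_sub_C_ne_zero _
  · exact one_ne_zero

theorem valF_deg (P : Place D p σ) (t : LL D) : (valF P t).natDegree ≤ 1 := by
  unfold valF
  split_ifs
  · rw [natDegree_X_sub_C]
  · rw [natDegree_one]
    exact zero_le_one

theorem valF_root (P : Place D p σ) (t : LL D) (h : t ∈ P.C) : (valF P t).eval (P.φ ⟨t, h⟩) = 0 := by
  unfold valF
  rw [dif_pos h, eval_sub, eval_X, eval_C, sub_self]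

theorem val_inv (P : Place D p σ) {y : LL D} (hy : y ∈ P.C) (h : P.φ ⟨y, hy⟩ ≠ 0) :
    ∃ hi : y⁻¹ ∈ P.C, P.φ ⟨y⁻¹, hi⟩ * P.φ ⟨y, hy⟩ = 1 := by
  have h1 := (P.ker ⟨y, hy⟩).not.1 h
  push Not at h1
  obtain ⟨h2, h3⟩ := h1
  refine ⟨h3, ?_⟩
  rw [← map_mul]
  have : (⟨y⁻¹, h3⟩ : P.C) * ⟨y, hy⟩ = 1 := Subtype.ext (inv_mul_cancel₀ h2)
  rw [this, map_one]

theorem val_one (P : Place D p σ) (t : LL D) (c c' : k)
    (hc' : (valF P t).eval (σ c') ≠ 0) (hc : (valF P t).eval (σ c) ≠ 0) :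
    ∃ hx : (t - algebraMap k (LL D) c) / (t - algebraMap k (LL D) c') ∈ P.C,
      P.φ ⟨_, hx⟩ ≠ 0 ∧ P.φ ⟨_, hx⟩ * (valF P t).eval (σ c') = (valF P t).eval (σ c) := by
  obtain ⟨mc, hmc⟩ := P.base c
  obtain ⟨mc', hmc'⟩ := P.base c'
  have key : ∃ hx : (t - algebraMap k (LL D) c) / (t - algebraMap k (LL D) c') ∈ P.C,
      P.φ ⟨_, hx⟩ * (valF P t).eval (σ c') = (valF P t).eval (σ c) := by
    by_cases h : t ∈ P.C
    · have e1 : ∀ z, (valF P t).eval z = z - P.φ ⟨t, h⟩ := by
        intro z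
        unfold valF
        rw [dif_pos h, eval_sub, eval_X, eval_C]
      have m' : t - algebraMap k (LL D) c' ∈ P.C := P.C.toSubring.sub_mem h mc'
      have m : t - algebraMap k (LL D) c ∈ P.C := P.C.toSubring.sub_mem h mc
      have v' : P.φ ⟨_, m'⟩ = P.φ ⟨t, h⟩ - σ c' := by
        rw [← hmc', ← map_sub]
        rfl
      have v : P.φ ⟨_, m⟩ = P.φ ⟨t, h⟩ - σ c := by
        rw [← hmc, ← map_sub]
        rfl
      have hv' : P.φ ⟨_, m'⟩ ≠ 0 := by
        rw [v']
        intro h0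
        apply hc'
        rw [e1]
        linear_combination -h0
      obtain ⟨hi, hi1⟩ := val_inv P m' hv'
      refine ⟨?_, ?_⟩
      · rw [div_eq_mul_inv]
        exact P.C.mul_mem _ _ m hi
      · have e2 : ∀ hx, P.φ ⟨(t - algebraMap k (LL D) c) / (t - algebraMap k (LL D) c'), hx⟩ =
            P.φ ⟨_, m⟩ * P.φ ⟨_, hi⟩ := by
          intro hx
          rw [← map_mul]
          congr 1
          exact Subtype.ext (div_eq_mul_inv _ _)
        rw [e2, e1, e1, v]
        rw [v'] at hi1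
        linear_combination (σ c - P.φ ⟨t, h⟩) * hi1
    · have e1 : ∀ z, (valF P t).eval z = 1 := by
        intro z
        unfold valF
        rw [dif_neg h, eval_one]
      have ht0 : t ≠ 0 := by
        intro h0
        exact h (by rw [h0]; exact P.C.zero_mem)
      have mi : t⁻¹ ∈ P.C := (P.C.mem_or_inv_mem t).resolve_left h
      have vi : P.φ ⟨t⁻¹, mi⟩ = 0 := by
        rw [P.ker]
        right
        show (t⁻¹)⁻¹ ∉ P.C
        rw [inv_inv]
        exact h
      have m' : 1 - algebraMap k (LL D) c' * t⁻¹ ∈ P.C :=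
        P.C.toSubring.sub_mem P.C.one_mem (P.C.mul_mem _ _ mc' mi)
      have m : 1 - algebraMap k (LL D) c * t⁻¹ ∈ P.C :=
        P.C.toSubring.sub_mem P.C.one_mem (P.C.mul_mem _ _ mc mi)
      have v' : P.φ ⟨_, m'⟩ = 1 := by
        have : (⟨_, m'⟩ : P.C) = 1 - ⟨_, mc'⟩ * ⟨_, mi⟩ := rfl
        rw [this, map_sub, map_one, map_mul, vi, mul_zero, sub_zero]
      have v : P.φ ⟨_, m⟩ = 1 := by
        have : (⟨_, m⟩ : P.C) = 1 - ⟨_, mc⟩ * ⟨_, mi⟩ := rfl
        rw [this, map_sub, map_one, map_mul, vi, mul_zero, sub_zero]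
      have hv' : P.φ ⟨_, m'⟩ ≠ 0 := by
        rw [v']
        exact one_ne_zero
      obtain ⟨hi, hi1⟩ := val_inv P m' hv'
      have ex : (t - algebraMap k (LL D) c) / (t - algebraMap k (LL D) c') =
          (1 - algebraMap k (LL D) c * t⁻¹) * (1 - algebraMap k (LL D) c' * t⁻¹)⁻¹ := by
        have a1 : t - algebraMap k (LL D) c = t * (1 - algebraMap k (LL D) c * t⁻¹) := by
          field_simp
        have a2 : t - algebraMap k (LL D) c' = t * (1 - algebraMap k (LL D) c' * t⁻¹) := by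
          field_simp
        rw [a1, a2, mul_div_mul_left _ _ ht0, div_eq_mul_inv]
      refine ⟨?_, ?_⟩
      · rw [ex]
        exact P.C.mul_mem _ _ m hi
      · have e2 : ∀ hx, P.φ ⟨(t - algebraMap k (LL D) c) / (t - algebraMap k (LL D) c'), hx⟩ =
            P.φ ⟨_, m⟩ * P.φ ⟨_, hi⟩ := by
          intro hx
          rw [← map_mul]
          congr 1
          exact Subtype.ext ex
        rw [e2, e1, e1, v]
        rw [v'] at hi1
        linear_combination hi1
  obtain ⟨hx, h1⟩ := key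
  refine ⟨hx, ?_, h1⟩
  intro h0
  rw [h0, zero_mul] at h1
  exact hc h1.symm

end

theorem st_VAL : ST_VAL := by
  intro k Ω _ _ _ D k₁ _ _ p _ T P t _
  refine ⟨∏ i, valF (P i) t, Finset.prod_ne_zero_iff.2 fun i _ => valF_ne _ _, ?_, ?_, ?_⟩
  · refine (natDegree_prod_le _ _).trans ?_
    calc ∑ i, (valF (P i) t).natDegree ≤ ∑ _i : Fin T.n, 1 :=
          Finset.sum_le_sum fun i _ => valF_deg _ _
      _ = T.n := by rw [Finset.sum_const, Finset.card_univ, Fintype.card_fin, smul_eq_mul, mul_one]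
  · intro i h
    rw [eval_prod]
    exact Finset.prod_eq_zero (Finset.mem_univ i) (valF_root _ _ h)
  · intro c c' hc hc'
    rw [eval_prod] at hc hc'
    have h1 : ∀ i, ∃ hx : (t - algebraMap k (LL D) (algebraMap k₁ k c)) /
        (t - algebraMap k (LL D) (algebraMap k₁ k c')) ∈ (P i).C,
        (P i).φ ⟨_, hx⟩ ≠ 0 ∧
          (P i).φ ⟨_, hx⟩ * (valF (P i) t).eval (T.j c') = (valF (P i) t).eval (T.j c) := by
      intro i
      have a := val_one (P i) t (algebraMap k₁ k c) (algebraMap k₁ k c')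
      rw [T.res i c, T.res i c'] at a
      exact a (Finset.prod_ne_zero_iff.1 hc' i (Finset.mem_univ i))
        (Finset.prod_ne_zero_iff.1 hc i (Finset.mem_univ i))
    choose hx h2 h3 using h1
    refine ⟨hx, h2, ?_⟩
    rw [eval_prod, eval_prod, ← Finset.prod_mul_distrib]
    exact Finset.prod_congr rfl fun i _ => h3 i

end Pool.Agent.Helper18.FF3
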